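import Mathlib

/-!
# 3-good partitions of `[n]`

Every `{1, …, n}` can be partitioned into sets of size at most `3` whose sums are powers of `3`.
-/

namespace Pool.Agent.V11199.TG

open Finset

/-- a `3`-good part -/
def Part (S : Finset ℕ) : Prop := S.Nonempty ∧ S.card ≤ 3 ∧ ∃ j, ∑ x ∈ S, x = 3 ^ j

/-- finite sets which are disjoint unions of `3`-good parts -/
inductive Good : Finset ℕ → Prop
  | empty : Good ∅
  | add (S M : Finset ℕ) : Part S → Good M → Disjoint S M → Good (S ∪ M)

theorem Good.congr {A B : Finset ℕ} (h : Good A) (hAB : ∀ x, x ∈ B ↔ x ∈ A) : Good B := by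
  have : B = A := Finset.ext hAB
  rw [this]; exact h

theorem Good.union {A B : Finset ℕ} (hA : Good A) (hB : Good B) (h : Disjoint A B) :
    Good (A ∪ B) := by
  induction hA with
  | empty => simpa using hB
  | add S M hS _ hSM ih =>
    rw [Finset.disjoint_union_left] at h
    rw [Finset.union_assoc]
    refine Good.add S (M ∪ B) hS (ih h.2) ?_
    rw [Finset.disjoint_union_right]
    exact ⟨hSM, h.1⟩

theorem Good.union' {A B : Finset ℕ} (hA : Good A) (hB : Good B)
    (h : ∀ x, x ∈ A → x ∈ B → False) : Good (A ∪ B) :=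
  hA.union hB (Finset.disjoint_left.mpr (fun {x} ha hb => h x ha hb))

theorem good_part {S : Finset ℕ} (hS : Part S) : Good S := by
  have := Good.add S ∅ hS Good.empty (Finset.disjoint_empty_right S)
  simpa using this

theorem good_single (k : ℕ) : Good {3 ^ k} :=
  good_part ⟨⟨3 ^ k, by simp⟩, by simp, k, by simp⟩

theorem part_pair {a b K : ℕ} (hab : a ≠ b) (h : a + b = 3 ^ K) : Part {a, b} := by
  refine ⟨⟨a, by simp⟩, ?_, K, ?_⟩
  · rw [Finset.card_pair hab]; norm_num
  · rw [Finset.sum_pair hab]; exact h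

theorem part_triple {a b c K : ℕ} (hab : a ≠ b) (hac : a ≠ c) (hbc : b ≠ c)
    (h : a + b + c = 3 ^ K) : Part {a, b, c} := by
  refine ⟨⟨a, by simp⟩, ?_, K, ?_⟩
  · rw [Finset.card_eq_three.mpr ⟨a, b, c, hab, hac, hbc, rfl⟩]
  · rw [Finset.sum_insert (by simp [hab, hac]), Finset.sum_pair hbc, ← h]; ring

theorem good_fam2 {ι : Type} [DecidableEq ι] (I : Finset ι) (f g : ι → ℕ) (K : ℕ)
    (hsum : ∀ i ∈ I, f i + g i = 3 ^ K)
    (hf : ∀ i ∈ I, ∀ j ∈ I, f i = f j → i = j)
    (hg : ∀ i ∈ I, ∀ j ∈ I, g i = g j → i = j)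
    (hfg : ∀ i ∈ I, ∀ j ∈ I, f i ≠ g j) : Good (I.image f ∪ I.image g) := by
  induction I using Finset.induction_on with
  | empty => simpa using Good.empty
  | insert a I ha ih =>
    have ih' := ih (fun i hi => hsum i (mem_insert_of_mem hi))
      (fun i hi j hj => hf i (mem_insert_of_mem hi) j (mem_insert_of_mem hj))
      (fun i hi j hj => hg i (mem_insert_of_mem hi) j (mem_insert_of_mem hj))
      (fun i hi j hj => hfg i (mem_insert_of_mem hi) j (mem_insert_of_mem hj))
    have haI := mem_insert_self a I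
    have hp : Part {f a, g a} := part_pair (hfg a haI a haI) (hsum a haI)
    refine ((good_part hp).union' ih' ?_).congr ?_
    · intro x hx hx'
      simp only [mem_insert, mem_singleton, mem_union, mem_image] at hx hx'
      rcases hx with rfl | rfl
      · rcases hx' with ⟨i, hi, h⟩ | ⟨i, hi, h⟩
        · have := hf i (mem_insert_of_mem hi) a haI h
          exact ha (this ▸ hi)
        · exact hfg a haI i (mem_insert_of_mem hi) h.symm
      · rcases hx' with ⟨i, hi, h⟩ | ⟨i, hi, h⟩
        · exact hfg i (mem_insert_of_mem hi) a haI h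
        · have := hg i (mem_insert_of_mem hi) a haI h
          exact ha (this ▸ hi)
    · intro x
      simp only [mem_insert, mem_singleton, mem_union, mem_image, exists_eq_or_imp]
      constructor
      · rintro ((h | h) | (h | h))
        · exact Or.inl (Or.inl h.symm)
        · exact Or.inr (Or.inl h)
        · exact Or.inl (Or.inr h.symm)
        · exact Or.inr (Or.inr h)
      · rintro ((h | h) | (h | h))
        · exact Or.inl (Or.inl h.symm)
        · exact Or.inr (Or.inl h.symm)
        · exact Or.inl (Or.inr h)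
        · exact Or.inr (Or.inr h)

theorem good_fam3 {ι : Type} [DecidableEq ι] (I : Finset ι) (f g h : ι → ℕ) (K : ℕ)
    (hsum : ∀ i ∈ I, f i + g i + h i = 3 ^ K)
    (hf : ∀ i ∈ I, ∀ j ∈ I, f i = f j → i = j)
    (hg : ∀ i ∈ I, ∀ j ∈ I, g i = g j → i = j)
    (hh : ∀ i ∈ I, ∀ j ∈ I, h i = h j → i = j)
    (hfg : ∀ i ∈ I, ∀ j ∈ I, f i ≠ g j)
    (hfh : ∀ i ∈ I, ∀ j ∈ I, f i ≠ h j)
    (hgh : ∀ i ∈ I, ∀ j ∈ I, g i ≠ h j) :
    Good (I.image f ∪ (I.image g ∪ I.image h)) := by
  induction I using Finset.induction_on with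
  | empty => simpa using Good.empty
  | insert a I ha ih =>
    have ih' := ih (fun i hi => hsum i (mem_insert_of_mem hi))
      (fun i hi j hj => hf i (mem_insert_of_mem hi) j (mem_insert_of_mem hj))
      (fun i hi j hj => hg i (mem_insert_of_mem hi) j (mem_insert_of_mem hj))
      (fun i hi j hj => hh i (mem_insert_of_mem hi) j (mem_insert_of_mem hj))
      (fun i hi j hj => hfg i (mem_insert_of_mem hi) j (mem_insert_of_mem hj))
      (fun i hi j hj => hfh i (mem_insert_of_mem hi) j (mem_insert_of_mem hj))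
      (fun i hi j hj => hgh i (mem_insert_of_mem hi) j (mem_insert_of_mem hj))
    have haI := mem_insert_self a I
    have hp : Part {f a, g a, h a} :=
      part_triple (hfg a haI a haI) (hfh a haI a haI) (hgh a haI a haI) (hsum a haI)
    refine ((good_part hp).union' ih' ?_).congr ?_
    · intro x hx hx'
      simp only [mem_insert, mem_singleton, mem_union, mem_image] at hx hx'
      rcases hx with rfl | rfl | rfl
      · rcases hx' with ⟨i, hi, e⟩ | ⟨i, hi, e⟩ | ⟨i, hi, e⟩
        · have := hf i (mem_insert_of_mem hi) a haI e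
          exact ha (this ▸ hi)
        · exact hfg a haI i (mem_insert_of_mem hi) e.symm
        · exact hfh a haI i (mem_insert_of_mem hi) e.symm
      · rcases hx' with ⟨i, hi, e⟩ | ⟨i, hi, e⟩ | ⟨i, hi, e⟩
        · exact hfg i (mem_insert_of_mem hi) a haI e
        · have := hg i (mem_insert_of_mem hi) a haI e
          exact ha (this ▸ hi)
        · exact hgh a haI i (mem_insert_of_mem hi) e.symm
      · rcases hx' with ⟨i, hi, e⟩ | ⟨i, hi, e⟩ | ⟨i, hi, e⟩
        · exact hfh i (mem_insert_of_mem hi) a haI e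
        · exact hgh i (mem_insert_of_mem hi) a haI e
        · have := hh i (mem_insert_of_mem hi) a haI e
          exact ha (this ▸ hi)
    · intro x
      simp only [mem_insert, mem_singleton, mem_union, mem_image, exists_eq_or_imp]
      constructor
      · rintro ((h | h) | (h | h) | (h | h))
        · exact Or.inl (Or.inl h.symm)
        · exact Or.inr (Or.inl h)
        · exact Or.inl (Or.inr (Or.inl h.symm))
        · exact Or.inr (Or.inr (Or.inl h))
        · exact Or.inl (Or.inr (Or.inr h.symm))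
        · exact Or.inr (Or.inr (Or.inr h))
      · rintro ((h | h | h) | (h | h | h))
        · exact Or.inl (Or.inl h.symm)
        · exact Or.inr (Or.inl (Or.inl h.symm))
        · exact Or.inr (Or.inr (Or.inl h.symm))
        · exact Or.inl (Or.inr h)
        · exact Or.inr (Or.inl (Or.inr h))
        · exact Or.inr (Or.inr (Or.inr h))

theorem odd_pow (K : ℕ) : 3 ^ K % 2 = 1 := by
  rw [Nat.pow_mod]; simp

/-- a set closed under `x ↦ 3 ^ K - x` is good -/
theorem good_sym (K : ℕ) (A : Finset ℕ) (hA : ∀ x ∈ A, x < 3 ^ K ∧ 3 ^ K - x ∈ A) : Good A := by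
  have hodd := odd_pow K
  obtain ⟨c, hc⟩ : ∃ c, c = 3 ^ K := ⟨_, rfl⟩
  rw [← hc] at hA hodd
  have h := good_fam2 (A.filter (fun x => 2 * x < c)) (fun x => x) (fun x => c - x) K
    (by
      intro i hi
      rw [mem_filter] at hi
      show i + (c - i) = 3 ^ K
      omega)
    (fun i _ j _ h => h)
    (by
      intro i hi j hj h
      rw [mem_filter] at hi hj
      omega)
    (by
      intro i hi j hj h
      rw [mem_filter] at hi hj
      omega)
  refine h.congr ?_
  intro x
  simp only [mem_union, mem_image, mem_filter]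
  constructor
  · intro hx
    by_cases h2 : 2 * x < c
    · exact Or.inl ⟨x, ⟨hx, h2⟩, rfl⟩
    · refine Or.inr ⟨c - x, ⟨(hA x hx).2, ?_⟩, ?_⟩
      · have := (hA x hx).1
        omega
      · have := (hA x hx).1
        omega
  · rintro (⟨a, ⟨ha, _⟩, rfl⟩ | ⟨a, ⟨ha, _⟩, rfl⟩)
    · exact ha
    · exact (hA a ha).2

/-- `{3 ^ s ± d : 1 ≤ d ≤ 3 j}` -/
def Z (c n : ℕ) : Finset ℕ := Icc (c - n) (c - 1) ∪ Icc (c + 1) (c + n)

theorem mem_Z {c n x : ℕ} : x ∈ Z c n ↔ (c - n ≤ x ∧ x ≤ c - 1) ∨ (c + 1 ≤ x ∧ x ≤ c + n) := by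
  unfold Z
  simp only [mem_union, mem_Icc]

theorem good_Z0 (s j : ℕ) (hj : 3 * j < 3 ^ s) : Good (Z (3 ^ s) (3 * j)) := by
  obtain ⟨c, hc⟩ : ∃ c, c = 3 ^ s := ⟨_, rfl⟩
  rw [← hc] at hj ⊢
  have h3 : 3 ^ (s + 1) = 3 * c := by rw [pow_succ, ← hc]; ring
  have hA := good_fam3 (range j) (fun t => c - 3 * j + 2 * t) (fun t => c + 2 * j - t)
    (fun t => c + j - t) (s + 1)
    (by intro i hi; rw [mem_range] at hi; rw [h3]; omega)
    (by intro i hi k hk h; rw [mem_range] at hi hk; omega)
    (by intro i hi k hk h; rw [mem_range] at hi hk; omega)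
    (by intro i hi k hk h; rw [mem_range] at hi hk; omega)
    (by intro i hi k hk h; rw [mem_range] at hi hk; omega)
    (by intro i hi k hk h; rw [mem_range] at hi hk; omega)
    (by intro i hi k hk h; rw [mem_range] at hi hk; omega)
  have hB := good_fam3 (range j) (fun t => c - 3 * j + 2 * t + 1) (fun t => c + 3 * j - t)
    (fun t => c - 1 - t) (s + 1)
    (by intro i hi; rw [mem_range] at hi; rw [h3]; omega)
    (by intro i hi k hk h; rw [mem_range] at hi hk; omega)
    (by intro i hi k hk h; rw [mem_range] at hi hk; omega)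
    (by intro i hi k hk h; rw [mem_range] at hi hk; omega)
    (by intro i hi k hk h; rw [mem_range] at hi hk; omega)
    (by intro i hi k hk h; rw [mem_range] at hi hk; omega)
    (by intro i hi k hk h; rw [mem_range] at hi hk; omega)
  refine (hA.union' hB ?_).congr ?_
  · intro x hx hy
    simp only [mem_union, mem_image, mem_range] at hx hy
    rcases hx with ⟨a, ha, hxa⟩ | ⟨a, ha, hxa⟩ | ⟨a, ha, hxa⟩ <;>
      rcases hy with ⟨b, hb, hxb⟩ | ⟨b, hb, hxb⟩ | ⟨b, hb, hxb⟩ <;> omega
  · intro x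
    rw [mem_Z]
    simp only [mem_union, mem_image, mem_range]
    constructor
    · rintro (⟨h1, h2⟩ | ⟨h1, h2⟩)
      · by_cases hx : x < c - j
        · rcases Nat.even_or_odd' (x - (c - 3 * j)) with ⟨t, ht | ht⟩
          · exact Or.inl (Or.inl ⟨t, by omega, by omega⟩)
          · exact Or.inr (Or.inl ⟨t, by omega, by omega⟩)
        · exact Or.inr (Or.inr (Or.inr ⟨c - 1 - x, by omega, by omega⟩))
      · by_cases hx : x ≤ c + j
        · exact Or.inl (Or.inr (Or.inr ⟨c + j - x, by omega, by omega⟩))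
        · by_cases hx2 : x ≤ c + 2 * j
          · exact Or.inl (Or.inr (Or.inl ⟨c + 2 * j - x, by omega, by omega⟩))
          · exact Or.inr (Or.inr (Or.inl ⟨c + 3 * j - x, by omega, by omega⟩))
    · rintro ((⟨t, ht, h⟩ | ⟨t, ht, h⟩ | ⟨t, ht, h⟩) | (⟨t, ht, h⟩ | ⟨t, ht, h⟩ | ⟨t, ht, h⟩)) <;>
        omega

theorem good_Z1 (s j : ℕ) (hj : 3 * j + 1 < 3 ^ s) :
    Good (Icc (3 ^ s - (3 * j + 1)) (3 ^ s + (3 * j + 1))) := by
  obtain ⟨c, hc⟩ : ∃ c, c = 3 ^ s := ⟨_, rfl⟩
  rw [← hc] at hj ⊢
  have h3 : 3 ^ (s + 1) = 3 * c := by rw [pow_succ, ← hc]; ring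
  have hA := good_fam3 (range (j + 1)) (fun t => c - 3 * j - 1 + 2 * t)
    (fun t => c + 2 * j + 1 - t) (fun t => c + j - t) (s + 1)
    (by intro i hi; rw [mem_range] at hi; rw [h3]; omega)
    (by intro i hi k hk h; rw [mem_range] at hi hk; omega)
    (by intro i hi k hk h; rw [mem_range] at hi hk; omega)
    (by intro i hi k hk h; rw [mem_range] at hi hk; omega)
    (by intro i hi k hk h; rw [mem_range] at hi hk; omega)
    (by intro i hi k hk h; rw [mem_range] at hi hk; omega)
    (by intro i hi k hk h; rw [mem_range] at hi hk; omega)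
  have hB := good_fam3 (range j) (fun t => c - 3 * j + 2 * t) (fun t => c + 3 * j + 1 - t)
    (fun t => c - 1 - t) (s + 1)
    (by intro i hi; rw [mem_range] at hi; rw [h3]; omega)
    (by intro i hi k hk h; rw [mem_range] at hi hk; omega)
    (by intro i hi k hk h; rw [mem_range] at hi hk; omega)
    (by intro i hi k hk h; rw [mem_range] at hi hk; omega)
    (by intro i hi k hk h; rw [mem_range] at hi hk; omega)
    (by intro i hi k hk h; rw [mem_range] at hi hk; omega)
    (by intro i hi k hk h; rw [mem_range] at hi hk; omega)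
  refine (hA.union' hB ?_).congr ?_
  · intro x hx hy
    simp only [mem_union, mem_image, mem_range] at hx hy
    rcases hx with ⟨a, ha, hxa⟩ | ⟨a, ha, hxa⟩ | ⟨a, ha, hxa⟩ <;>
      rcases hy with ⟨b, hb, hxb⟩ | ⟨b, hb, hxb⟩ | ⟨b, hb, hxb⟩ <;> omega
  · intro x
    simp only [mem_union, mem_image, mem_range, mem_Icc]
    constructor
    · rintro ⟨h1, h2⟩
      by_cases hx : x < c - j
      · rcases Nat.even_or_odd' (x - (c - 3 * j - 1)) with ⟨t, ht | ht⟩
        · exact Or.inl (Or.inl ⟨t, by omega, by omega⟩)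
        · exact Or.inr (Or.inl ⟨t, by omega, by omega⟩)
      · by_cases hx0 : x < c
        · exact Or.inr (Or.inr (Or.inr ⟨c - 1 - x, by omega, by omega⟩))
        · by_cases hx1 : x ≤ c + j
          · exact Or.inl (Or.inr (Or.inr ⟨c + j - x, by omega, by omega⟩))
          · by_cases hx2 : x ≤ c + 2 * j + 1
            · exact Or.inl (Or.inr (Or.inl ⟨c + 2 * j + 1 - x, by omega, by omega⟩))
            · exact Or.inr (Or.inr (Or.inl ⟨c + 3 * j + 1 - x, by omega, by omega⟩))
    · rintro ((⟨t, ht, h⟩ | ⟨t, ht, h⟩ | ⟨t, ht, h⟩) | (⟨t, ht, h⟩ | ⟨t, ht, h⟩ | ⟨t, ht, h⟩)) <;>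
        omega

end Pool.Agent.V11199.TG
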