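import Pool.Agent.V11199.TG.Main

/-!
# 3-good partitions of `[n]`: the lifting step and the theorem
-/

namespace Pool.Agent.V11199.TG

open Finset

theorem FF_lift (s m' : ℕ) (hm : 2 * m' < 3 ^ s) (hs3 : 3 ∣ 3 ^ s) (h : FF m') :
    FF (3 ^ s + m') := by
  obtain ⟨r, j, E, hE, hmr, hK⟩ := h
  obtain ⟨p, hp⟩ := hs3
  refine ⟨r, j + p, E, hE, by omega, ?_⟩
  have hrm : r ≤ m' := by omega
  have hL := good_left s (Mset m' r E) (Mset_bound hE hrm hm) (hK s hm)
  have hZ := good_Z0 s j (by omega)
  have hS := good_single s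
  have hb := Mset_bound hE hrm hm
  have h33 : 3 ^ (s + 1) = 3 * 3 ^ s := by rw [pow_succ]; ring
  have h99 : 3 ^ (s + 2) = 9 * 3 ^ s := by rw [pow_succ, pow_succ]; ring
  have hsl := hE.sum_le
  have hlt := hE.lt
  intro t ht
  have hts : s + 1 ≤ t := by
    by_contra hcon
    have : 3 ^ t ≤ 3 ^ s := Nat.pow_le_pow_right (by norm_num) (by omega)
    omega
  obtain ⟨c, hc⟩ : ∃ c, c = 3 ^ s := ⟨_, rfl⟩
  rw [← hc] at hm hL hZ hS hb hp h33 h99 ht ⊢
  have hmj : m' - r = 3 * j := by omega
  -- the set K
  have h1 : Good ({c} ∪ Z c (3 * j)) := hS.union' hZ (by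
    intro x hx hy
    rw [mem_singleton] at hx
    rw [mem_Z] at hy
    omega)
  have hKK : Good (({c} ∪ Z c (3 * j)) ∪ left c (Mset m' r E)) := h1.union' hL (by
    intro x hx hy
    rw [mem_left] at hy
    simp only [mem_union, mem_singleton, mem_Z] at hx
    rcases hx with hx | hx
    · omega
    · apply hy.2
      rw [mem_Mset]
      left; omega)
  obtain ⟨K, hKdef⟩ : ∃ K, K = ({c} ∪ Z c (3 * j)) ∪ left c (Mset m' r E) := ⟨_, rfl⟩
  rw [← hKdef] at hKK
  have hKmem : ∀ x, x ∈ K ↔ (x = c ∨ ((c - 3 * j ≤ x ∧ x ≤ c - 1) ∨ (c + 1 ≤ x ∧ x ≤ c + 3 * j)))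
      ∨ ((1 ≤ x ∧ x ≤ c - 1) ∧ c - x ∉ Mset m' r E) := by
    intro x
    rw [hKdef]
    simp only [mem_union, mem_singleton, mem_Z, mem_left]
  -- elements of K are ≤ c + 3 j
  have hKle : ∀ x ∈ K, 1 ≤ x ∧ x ≤ c + 3 * j := by
    intro x hx
    rw [hKmem] at hx
    omega
  -- Icc 1 (c + 3 j) = K ∪ image
  have hsplit : ∀ x, (1 ≤ x ∧ x ≤ c + 3 * j) ↔
      (x ∈ K ∨ ∃ e ∈ E, c - (2 * m' - (e.1 + e.2)) = x) := by
    intro x
    rw [hKmem]
    constructor
    · rintro ⟨h1, h2⟩
      rcases lt_trichotomy x c with hx | hx | hx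
      · by_cases hM : c - x ∈ Mset m' r E
        · rw [mem_Mset] at hM
          rcases hM with hM | ⟨e, he, h⟩
          · left; left; right; left; omega
          · right; exact ⟨e, he, by omega⟩
        · left; right
          exact ⟨⟨by omega, by omega⟩, hM⟩
      · left; left; left; exact hx
      · left; left; right; right; omega
    · rintro (hx | ⟨e, he, h⟩)
      · omega
      · have := hsl e he
        omega
  have hdisj : ∀ x, x ∈ K → ∀ e ∈ E, c - (2 * m' - (e.1 + e.2)) ≠ x := by
    intro x hx e he h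
    have h2 := hsl e he
    rw [hKmem] at hx
    rcases hx with hx | hx
    · omega
    · apply hx.2
      rw [mem_Mset]
      right
      exact ⟨e, he, by omega⟩
  have hMM : ∀ x, x ∈ Mset (c + m') r E ↔
      (1 ≤ x ∧ x ≤ c + 3 * j) ∨ ∃ e ∈ E, 2 * (c + m') - (e.1 + e.2) = x := by
    intro x
    rw [mem_Mset]
    have : c + m' - r = c + 3 * j := by omega
    rw [this]
  rcases Nat.lt_or_ge t (s + 2) with hts2 | hts2
  · -- t = s + 1
    have hteq : t = s + 1 := by omega
    subst hteq
    refine hKK.congr ?_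
    intro x
    rw [mem_filter, hMM, hMM, h33]
    constructor
    · rintro ⟨hx, hy⟩
      rcases hx with hx | ⟨e, he, h⟩
      · rcases (hsplit x).mp hx with hxK | ⟨e, he, h⟩
        · exact hxK
        · exfalso
          apply hy
          right
          have := hsl e he
          exact ⟨e, he, by omega⟩
      · exfalso
        apply hy
        left
        have := hsl e he
        omega
    · intro hxK
      have hx := hKle x hxK
      refine ⟨Or.inl hx, ?_⟩
      rintro (h | ⟨e, he, h⟩)
      · omega
      · have := hsl e he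
        apply hdisj x hxK e he
        omega
  · -- t ≥ s + 2
    have h9 : 9 * c ≤ 3 ^ t := by
      rw [← h99]
      exact Nat.pow_le_pow_right (by norm_num) hts2
    have hpairs := good_fam2 E (fun e => 2 * (c + m') - (e.1 + e.2))
      (fun e => c - (2 * m' - (e.1 + e.2))) (s + 1)
      (by intro e he; have := hsl e he; rw [h33]; omega)
      (by
        intro e he e' he' h
        apply hE.injs e he e' he'
        have := hsl e he; have := hsl e' he'; omega)
      (by
        intro e he e' he' h
        apply hE.injs e he e' he'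
        have := hsl e he; have := hsl e' he'; omega)
      (by
        intro e he e' he' h
        have := hsl e he; have := hsl e' he'; omega)
    refine (hKK.union' hpairs ?_).congr ?_
    · intro x hx hy
      simp only [mem_union, mem_image] at hy
      rcases hy with ⟨e, he, h⟩ | ⟨e, he, h⟩
      · have := hKle x hx
        have := hsl e he
        omega
      · exact hdisj x hx e he h
    · intro x
      rw [mem_filter]
      simp only [mem_union, mem_image]
      rw [hMM]
      constructor
      · rintro ⟨hx | hx, _⟩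
        · rcases (hsplit x).mp hx with hxK | hxe
          · exact Or.inl hxK
          · exact Or.inr (Or.inr hxe)
        · exact Or.inr (Or.inl hx)
      · intro hx
        have hxM : (1 ≤ x ∧ x ≤ c + 3 * j) ∨ ∃ e ∈ E, 2 * (c + m') - (e.1 + e.2) = x := by
          rcases hx with hx | hx | hx
          · exact Or.inl (hKle x hx)
          · exact Or.inr hx
          · exact Or.inl ((hsplit x).mpr (Or.inr hx))
        refine ⟨hxM, ?_⟩
        rw [hMM]
        have hx3 : x < 3 * c := by
          rcases hxM with h | ⟨e, he, h⟩ <;> omega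
        rintro (h | ⟨e, he, h⟩)
        · omega
        · have := hsl e he
          omega

theorem FF_all (m : ℕ) (hm : m % 3 = 2) (hG : ∀ k < m, Good (Icc 1 k)) : FF m := by
  induction m using Nat.strong_induction_on with
  | _ m ih =>
    have hm0 : m ≠ 0 := by omega
    obtain ⟨s, hs⟩ : ∃ s, s = Nat.log 3 m := ⟨_, rfl⟩
    have h1 : 3 ^ s ≤ m := by rw [hs]; exact Nat.pow_log_le_self 3 hm0
    have h2 : m < 3 ^ (s + 1) := by rw [hs]; exact Nat.lt_pow_succ_log_self (by norm_num) m
    have h33 : 3 ^ (s + 1) = 3 * 3 ^ s := by rw [pow_succ]; ring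
    have hodd := odd_pow (s + 1)
    have hodd' := odd_pow s
    rcases Nat.lt_or_ge (2 * m) (3 ^ (s + 1)) with hlt | hge
    · -- lift
      have hs0 : s ≠ 0 := by
        rintro rfl
        simp at h1 hlt
        omega
      have hdvd : 3 ∣ 3 ^ s := dvd_pow_self 3 hs0
      obtain ⟨m', hm'⟩ : ∃ m', m = 3 ^ s + m' := ⟨m - 3 ^ s, by omega⟩
      have hm'3 : m' % 3 = 2 := by omega
      rw [hm']
      have hpos : 0 < 3 ^ s := by positivity
      exact FF_lift s m' (by omega) hdvd (ih m' (by omega) hm'3 (fun k hk => hG k (by omega)))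
    · obtain ⟨h, hh⟩ : ∃ h, 3 ^ (s + 1) = 2 * h + 1 := ⟨3 ^ (s + 1) / 2, by omega⟩
      have hh3 : h % 3 = 1 := by omega
      -- w = m - h ≡ 1 mod 3
      have hw : (m - h) % 6 = 1 ∨ (m - h) % 6 = 4 := by omega
      rcases hw with hw | hw
      · obtain ⟨j, hj⟩ : ∃ j, m - h = 6 * j + 1 := ⟨(m - h) / 6, by omega⟩
        exact FF_odd s h m j hh (by omega) (by omega) hh3 (hG _ (by omega))
      · obtain ⟨j, hj⟩ : ∃ j, m - h = 6 * j + 4 := ⟨(m - h) / 6, by omega⟩
        exact FF_even s h m j hh (by omega) (by omega) hh3 (hG _ (by omega))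

theorem good_Icc (n : ℕ) : Good (Icc 1 n) := by
  induction n using Nat.strong_induction_on with
  | _ n ih =>
    rcases Nat.eq_zero_or_pos n with rfl | hn
    · simpa using Good.empty
    obtain ⟨s, hs⟩ : ∃ s, s = Nat.log 3 n := ⟨_, rfl⟩
    have h1 : 3 ^ s ≤ n := by rw [hs]; exact Nat.pow_log_le_self 3 (by omega)
    have h2 : n < 3 ^ (s + 1) := by rw [hs]; exact Nat.lt_pow_succ_log_self (by norm_num) n
    have h33 : 3 ^ (s + 1) = 3 * 3 ^ s := by rw [pow_succ]; ring
    have hodd := odd_pow (s + 1)
    have hodd' := odd_pow s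
    have hpos : 0 < 3 ^ s := by positivity
    rcases Nat.lt_or_ge (2 * n) (3 ^ (s + 1)) with hlt | hge
    · obtain ⟨m, hm⟩ : ∃ m, n = 3 ^ s + m := ⟨n - 3 ^ s, by omega⟩
      have hm2 : 2 * m < 3 ^ s := by omega
      have hmod : m % 3 = 0 ∨ m % 3 = 1 ∨ m % 3 = 2 := by omega
      rcases hmod with h0 | h0 | h0
      · obtain ⟨j, hj⟩ : ∃ j, m = 3 * j := ⟨m / 3, by omega⟩
        have hI := ih (3 ^ s - m - 1) (by omega)
        have hZ := good_Z0 s j (by omega)
        have hS := good_single s
        have hA : Good ({3 ^ s} ∪ Z (3 ^ s) (3 * j)) := hS.union' hZ (by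
          intro x hx hy
          rw [mem_singleton] at hx
          rw [mem_Z] at hy
          omega)
        refine (hI.union' hA ?_).congr ?_
        · intro x hx hy
          simp only [mem_union, mem_singleton, mem_Z, mem_Icc] at hx hy
          omega
        · intro x
          simp only [mem_union, mem_singleton, mem_Z, mem_Icc]
          omega
      · obtain ⟨j, hj⟩ : ∃ j, m = 3 * j + 1 := ⟨m / 3, by omega⟩
        have hI := ih (3 ^ s - m - 1) (by omega)
        have hZ := good_Z1 s j (by omega)
        refine (hI.union' hZ ?_).congr ?_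
        · intro x hx hy
          simp only [mem_Icc] at hx hy
          omega
        · intro x
          simp only [mem_union, mem_Icc]
          omega
      · obtain ⟨r, j, E, hE, hmr, hK⟩ := FF_all m h0 (fun k hk => ih k (by omega))
        rw [hm]
        exact good_top s m r j E hE hmr hm2 (hK s hm2)
    · have hI := ih (3 ^ (s + 1) - n - 1) (by omega)
      have hS := good_sym (s + 1) (Icc (3 ^ (s + 1) - n) n) (by
        intro x hx
        rw [mem_Icc] at hx ⊢
        omega)
      refine (hI.union' hS ?_).congr ?_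
      · intro x hx hy
        simp only [mem_Icc] at hx hy
        omega
      · intro x
        simp only [mem_union, mem_Icc]
        omega

theorem Good.finpartition {M : Finset ℕ} (h : Good M) :
    ∃ P : Finpartition M, ∀ S ∈ P.parts, S.card ≤ 3 ∧ ∃ j, ∑ x ∈ S, x = 3 ^ j := by
  induction h with
  | empty => exact ⟨Finpartition.empty _, by simp⟩
  | add S M hS _ hd ih =>
    obtain ⟨P, hP⟩ := ih
    refine ⟨P.extend (b := S) (c := S ∪ M) (by
      rw [Finset.bot_eq_empty]
      exact hS.1.ne_empty) hd.symm (by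
      rw [Finset.sup_eq_union, Finset.union_comm]), ?_⟩
    intro T hT
    rw [Finpartition.extend_parts, mem_insert] at hT
    rcases hT with rfl | hT
    · exact hS.2
    · exact hP T hT

end Pool.Agent.V11199.TG
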