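import Pool.Agent.V11199.TG.Core

/-!
# 3-good partitions of `[n]`: the induction
-/

namespace Pool.Agent.V11199.TG

open Finset

/-- `E` is a perfect matching of `{0, …, r - 1}` with distinct sums. -/
structure Match (r : ℕ) (E : Finset (ℕ × ℕ)) : Prop where
  lt : ∀ e ∈ E, e.1 < r ∧ e.2 < r
  inj1 : ∀ e ∈ E, ∀ e' ∈ E, e.1 = e'.1 → e = e'
  inj2 : ∀ e ∈ E, ∀ e' ∈ E, e.2 = e'.2 → e = e'
  ne : ∀ e ∈ E, ∀ e' ∈ E, e.1 ≠ e'.2
  cov : ∀ i < r, ∃ e ∈ E, e.1 = i ∨ e.2 = i
  injs : ∀ e ∈ E, ∀ e' ∈ E, e.1 + e.2 = e'.1 + e'.2 → e = e'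

/-- the leftover data -/
def Mset (m r : ℕ) (E : Finset (ℕ × ℕ)) : Finset ℕ :=
  Icc 1 (m - r) ∪ E.image (fun e => 2 * m - (e.1 + e.2))

theorem mem_Mset {m r : ℕ} {E : Finset (ℕ × ℕ)} {x : ℕ} :
    x ∈ Mset m r E ↔ (1 ≤ x ∧ x ≤ m - r) ∨ ∃ e ∈ E, 2 * m - (e.1 + e.2) = x := by
  unfold Mset
  simp only [mem_union, mem_Icc, mem_image]

/-- the elements below `c` whose mate is not in `M` -/
def left (c : ℕ) (M : Finset ℕ) : Finset ℕ := (Icc 1 (c - 1)).filter (fun x => c - x ∉ M)

theorem mem_left {c x : ℕ} {M : Finset ℕ} :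
    x ∈ left c M ↔ (1 ≤ x ∧ x ≤ c - 1) ∧ c - x ∉ M := by
  unfold left
  rw [mem_filter, mem_Icc]

theorem good_left (t : ℕ) (M : Finset ℕ) (hM : ∀ x ∈ M, 1 ≤ x ∧ x < 3 ^ t)
    (hK : Good (M.filter (fun x => 3 ^ t - x ∉ M))) : Good (left (3 ^ t) M) := by
  obtain ⟨c, hc⟩ : ∃ c, c = 3 ^ t := ⟨_, rfl⟩
  have hN := good_sym t ((Icc 1 (c - 1)).filter (fun x => x ∉ M ∧ c - x ∉ M)) (by
    intro x hx
    rw [← hc]
    rw [mem_filter, mem_Icc] at hx ⊢
    obtain ⟨⟨h1, h2⟩, h3, h4⟩ := hx
    refine ⟨by omega, ⟨by omega, by omega⟩, h4, ?_⟩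
    have : c - (c - x) = x := by omega
    rw [this]; exact h3)
  rw [← hc] at hM hK ⊢
  refine (hN.union' hK ?_).congr ?_
  · intro x hx hy
    rw [mem_filter] at hx hy
    exact hx.2.1 hy.1
  · intro x
    rw [mem_left, mem_union, mem_filter, mem_filter, mem_Icc]
    constructor
    · rintro ⟨h1, h2⟩
      by_cases hx : x ∈ M
      · exact Or.inr ⟨hx, h2⟩
      · exact Or.inl ⟨h1, hx, h2⟩
    · rintro (⟨h1, _, h2⟩ | ⟨h1, h2⟩)
      · exact ⟨h1, h2⟩
      · have := hM x h1
        exact ⟨⟨this.1, by omega⟩, h2⟩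

theorem Match.sum_le {r : ℕ} {E : Finset (ℕ × ℕ)} (hE : Match r E) :
    ∀ e ∈ E, e.1 + e.2 + 3 ≤ 2 * r := by
  intro e he
  have h1 := hE.lt e he
  have h2 := hE.ne e he e he
  omega

theorem Mset_bound {m r t : ℕ} {E : Finset (ℕ × ℕ)} (hE : Match r E) (hr : r ≤ m)
    (hm : 2 * m < 3 ^ t) : ∀ x ∈ Mset m r E, 1 ≤ x ∧ x < 3 ^ t := by
  intro x hx
  rw [mem_Mset] at hx
  rcases hx with ⟨h1, h2⟩ | ⟨e, he, rfl⟩
  · omega
  · have := hE.sum_le e he
    omega

/-- the case `n = 3 ^ t + m` with `m ≡ 2 (mod 3)`, given the leftover is good -/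
theorem good_top (t m r j : ℕ) (E : Finset (ℕ × ℕ)) (hE : Match r E) (hmr : m = r + 3 * j)
    (hm : 2 * m < 3 ^ t)
    (hK : Good ((Mset m r E).filter (fun x => 3 ^ t - x ∉ Mset m r E))) :
    Good (Icc 1 (3 ^ t + m)) := by
  have hrm : r ≤ m := by omega
  have hL := good_left t (Mset m r E) (Mset_bound hE hrm hm) hK
  have hZ := good_Z0 t j (by omega)
  have hS := good_single t
  have h3 : 3 ^ (t + 1) = 3 * 3 ^ t := by rw [pow_succ]; ring
  obtain ⟨c, hc⟩ : ∃ c, c = 3 ^ t := ⟨_, rfl⟩
  rw [← hc] at hm hL hZ hS h3 ⊢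
  have hs := hE.sum_le
  have hlt := hE.lt
  have hT := good_fam3 E (fun e => c + m - e.1) (fun e => c + m - e.2)
    (fun e => c - (2 * m - (e.1 + e.2))) (t + 1)
    (by intro e he; have := hs e he; have := hlt e he; rw [h3]; omega)
    (by
      intro e he e' he' h
      apply hE.inj1 e he e' he'
      have := hlt e he; have := hlt e' he'; omega)
    (by
      intro e he e' he' h
      apply hE.inj2 e he e' he'
      have := hlt e he; have := hlt e' he'; omega)
    (by
      intro e he e' he' h
      apply hE.injs e he e' he'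
      have := hs e he; have := hs e' he'; omega)
    (by
      intro e he e' he' h
      apply hE.ne e he e' he'
      have := hlt e he; have := hlt e' he'; omega)
    (by
      intro e he e' he' h
      have := hlt e he; have := hlt e' he'; have := hs e' he'; omega)
    (by
      intro e he e' he' h
      have := hlt e he; have := hlt e' he'; have := hs e' he'; omega)
  have hmj : m - r = 3 * j := by omega
  have h1 : Good ({c} ∪ Z c (3 * j)) := hS.union' hZ (by
    intro x hx hy
    rw [mem_singleton] at hx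
    rw [mem_Z] at hy
    omega)
  have h2 := h1.union' hT (by
    intro x hx hy
    simp only [mem_union, mem_singleton, mem_Z, mem_image] at hx hy
    rcases hy with ⟨e, he, h⟩ | ⟨e, he, h⟩ | ⟨e, he, h⟩ <;>
      (have := hlt e he; have := hs e he; omega))
  refine (h2.union' hL ?_).congr ?_
  · intro x hx hy
    rw [mem_left] at hy
    simp only [mem_union, mem_singleton, mem_Z, mem_image] at hx
    rcases hx with (hx | hx) | (⟨e, he, h⟩ | ⟨e, he, h⟩ | ⟨e, he, h⟩)
    · omega
    · apply hy.2
      rw [mem_Mset]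
      left; omega
    · have := hlt e he; omega
    · have := hlt e he; omega
    · apply hy.2
      rw [mem_Mset]
      right
      exact ⟨e, he, by have := hs e he; omega⟩
  · intro x
    simp only [mem_union, mem_singleton, mem_Z, mem_image, mem_left, mem_Icc]
    constructor
    · rintro ⟨h1, h2⟩
      rcases lt_trichotomy x c with hx | hx | hx
      · by_cases hM : c - x ∈ Mset m r E
        · left
          rw [mem_Mset] at hM
          rcases hM with hM | ⟨e, he, h⟩
          · left; right; left; omega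
          · right; right; right
            exact ⟨e, he, by omega⟩
        · right
          exact ⟨⟨by omega, by omega⟩, hM⟩
      · left; left; left; exact hx
      · left
        by_cases hd : x ≤ c + 3 * j
        · left; right; right; omega
        · obtain ⟨e, he, h⟩ := hE.cov (c + m - x) (by omega)
          right
          have := hlt e he
          rcases h with h | h
          · left; exact ⟨e, he, by omega⟩
          · right; left; exact ⟨e, he, by omega⟩
    · rintro (((hx | hx) | (⟨e, he, h⟩ | ⟨e, he, h⟩ | ⟨e, he, h⟩)) | hx)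
      · omega
      · omega
      · have := hlt e he; omega
      · have := hlt e he; omega
      · have := hs e he; omega
      · omega

/-- what is needed for `m ≡ 2 (mod 3)` -/
def FF (m : ℕ) : Prop := ∃ r j E, Match r E ∧ m = r + 3 * j ∧
  ∀ t, 2 * m < 3 ^ t → Good ((Mset m r E).filter (fun x => 3 ^ t - x ∉ Mset m r E))

/-- base case, odd width -/
theorem FF_odd (s h m j : ℕ) (hc : 3 ^ (s + 1) = 2 * h + 1) (hm : m = h + 6 * j + 1)
    (hjh : 6 * j + 1 ≤ h) (hh : h % 3 = 1) (hG : Good (Icc 1 (m - (12 * j + 2)))) : FF m := by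
  obtain ⟨J, hJ⟩ : ∃ J, h - (6 * j + 1) = 3 * J := ⟨(h - (6 * j + 1)) / 3, by omega⟩
  refine ⟨12 * j + 2, J, (range (3 * j + 1)).image (fun t => (12 * j + 1 - 2 * t, 3 * j + t)) ∪
    (range (3 * j)).image (fun t => (12 * j - 2 * t, t)), ?_, by omega, ?_⟩
  · constructor
    · intro e he
      simp only [mem_union, mem_image, mem_range] at he
      rcases he with ⟨t, ht, rfl⟩ | ⟨t, ht, rfl⟩ <;> simp only <;> omega
    · intro e he e' he' h
      simp only [mem_union, mem_image, mem_range] at he he'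
      rcases he with ⟨t, ht, rfl⟩ | ⟨t, ht, rfl⟩ <;> rcases he' with ⟨t', ht', rfl⟩ | ⟨t', ht', rfl⟩ <;>
        simp only [Prod.mk.injEq] at h ⊢ <;> omega
    · intro e he e' he' h
      simp only [mem_union, mem_image, mem_range] at he he'
      rcases he with ⟨t, ht, rfl⟩ | ⟨t, ht, rfl⟩ <;> rcases he' with ⟨t', ht', rfl⟩ | ⟨t', ht', rfl⟩ <;>
        simp only [Prod.mk.injEq] at h ⊢ <;> omega
    · intro e he e' he'
      simp only [mem_union, mem_image, mem_range] at he he'
      rcases he with ⟨t, ht, rfl⟩ | ⟨t, ht, rfl⟩ <;> rcases he' with ⟨t', ht', rfl⟩ | ⟨t', ht', rfl⟩ <;>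
        simp only <;> omega
    · intro i hi
      by_cases h1 : i < 3 * j
      · exact ⟨(12 * j - 2 * i, i), by
          simp only [mem_union, mem_image, mem_range]
          exact Or.inr ⟨i, h1, rfl⟩, Or.inr rfl⟩
      · by_cases h2 : i ≤ 6 * j
        · refine ⟨(12 * j + 1 - 2 * (i - 3 * j), 3 * j + (i - 3 * j)), ?_, Or.inr ?_⟩
          · simp only [mem_union, mem_image, mem_range]
            exact Or.inl ⟨i - 3 * j, by omega, rfl⟩
          · simp only; omega
        · rcases Nat.even_or_odd' (12 * j + 1 - i) with ⟨t, ht | ht⟩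
          · refine ⟨(12 * j + 1 - 2 * t, 3 * j + t), ?_, Or.inl ?_⟩
            · simp only [mem_union, mem_image, mem_range]
              exact Or.inl ⟨t, by omega, rfl⟩
            · simp only; omega
          · refine ⟨(12 * j - 2 * t, t), ?_, Or.inl ?_⟩
            · simp only [mem_union, mem_image, mem_range]
              exact Or.inr ⟨t, by omega, rfl⟩
            · simp only; omega
    · intro e he e' he' h
      simp only [mem_union, mem_image, mem_range] at he he'
      rcases he with ⟨t, ht, rfl⟩ | ⟨t, ht, rfl⟩ <;> rcases he' with ⟨t', ht', rfl⟩ | ⟨t', ht', rfl⟩ <;>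
        simp only [Prod.mk.injEq] at h ⊢ <;> omega
  · intro t ht
    obtain ⟨c, hcc⟩ : ∃ c, c = 3 ^ (s + 1) := ⟨_, rfl⟩
    have hZ := good_Z0 (s + 1) j (by omega)
    have hS := good_single (s + 1)
    have hts : s + 2 ≤ t := by
      by_contra hcon
      have : 3 ^ t ≤ 3 ^ (s + 1) := Nat.pow_le_pow_right (by norm_num) (by omega)
      omega
    have h9 : 3 * 3 ^ (s + 1) ≤ 3 ^ t := by
      calc 3 * 3 ^ (s + 1) = 3 ^ (s + 2) := by rw [pow_succ 3 (s + 1)]; ring
        _ ≤ 3 ^ t := Nat.pow_le_pow_right (by norm_num) hts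
    obtain ⟨b, hb⟩ : ∃ b, b = 3 ^ t := ⟨_, rfl⟩
    rw [← hcc] at hZ hS h9 hc
    rw [← hb] at h9 ⊢
    have hmem : ∀ x, x ∈ Mset m (12 * j + 2) ((range (3 * j + 1)).image
        (fun t => (12 * j + 1 - 2 * t, 3 * j + t)) ∪
        (range (3 * j)).image (fun t => (12 * j - 2 * t, t))) ↔
        (1 ≤ x ∧ x ≤ m - (12 * j + 2)) ∨ (c - 3 * j ≤ x ∧ x ≤ c + 3 * j) := by
      intro x
      rw [mem_Mset]
      constructor
      · rintro (hx | ⟨e, he, hx⟩)
        · exact Or.inl hx
        · simp only [mem_union, mem_image, mem_range] at he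
          rcases he with ⟨t, ht, rfl⟩ | ⟨t, ht, rfl⟩ <;> simp only at hx <;> omega
      · rintro (hx | hx)
        · exact Or.inl hx
        · right
          by_cases hxc : x ≤ c
          · refine ⟨(12 * j + 1 - 2 * (x - (c - 3 * j)), 3 * j + (x - (c - 3 * j))), ?_, ?_⟩
            · simp only [mem_union, mem_image, mem_range]
              exact Or.inl ⟨x - (c - 3 * j), by omega, rfl⟩
            · simp only; omega
          · refine ⟨(12 * j - 2 * (x - (c + 1)), x - (c + 1)), ?_, ?_⟩
            · simp only [mem_union, mem_image, mem_range]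
              exact Or.inr ⟨x - (c + 1), by omega, rfl⟩
            · simp only; omega
    have h1 : Good ({c} ∪ Z c (3 * j)) := hS.union' hZ (by
      intro x hx hy
      rw [mem_singleton] at hx
      rw [mem_Z] at hy
      omega)
    refine (hG.union' h1 ?_).congr ?_
    · intro x hx hy
      simp only [mem_union, mem_singleton, mem_Z, mem_Icc] at hx hy
      omega
    · intro x
      rw [mem_filter, hmem, hmem]
      simp only [mem_union, mem_singleton, mem_Z, mem_Icc]
      omega

/-- base case, even width -/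
theorem FF_even (s h m j : ℕ) (hc : 3 ^ (s + 1) = 2 * h + 1) (hm : m = h + 6 * j + 4)
    (hjh : 6 * j + 4 ≤ h) (hh : h % 3 = 1) (hG : Good (Icc 1 (m - (12 * j + 8)))) : FF m := by
  obtain ⟨J, hJ⟩ : ∃ J, h - (6 * j + 4) = 3 * J := ⟨(h - (6 * j + 4)) / 3, by omega⟩
  refine ⟨12 * j + 8, J, {(12 * j + 7, 6 * j + 3)} ∪
    ((range (3 * j + 2)).image (fun t => (12 * j + 6 - 2 * t, 3 * j + 1 + t)) ∪
    (range (3 * j + 1)).image (fun t => (12 * j + 5 - 2 * t, t))), ?_, by omega, ?_⟩
  · constructor
    · intro e he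
      simp only [mem_union, mem_image, mem_range, mem_singleton] at he
      rcases he with rfl | ⟨t, ht, rfl⟩ | ⟨t, ht, rfl⟩ <;> simp only <;> omega
    · intro e he e' he' h
      simp only [mem_union, mem_image, mem_range, mem_singleton] at he he'
      rcases he with rfl | ⟨t, ht, rfl⟩ | ⟨t, ht, rfl⟩ <;>
        rcases he' with rfl | ⟨t', ht', rfl⟩ | ⟨t', ht', rfl⟩ <;>
        simp only [Prod.mk.injEq] at h ⊢ <;> omega
    · intro e he e' he' h
      simp only [mem_union, mem_image, mem_range, mem_singleton] at he he'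
      rcases he with rfl | ⟨t, ht, rfl⟩ | ⟨t, ht, rfl⟩ <;>
        rcases he' with rfl | ⟨t', ht', rfl⟩ | ⟨t', ht', rfl⟩ <;>
        simp only [Prod.mk.injEq] at h ⊢ <;> omega
    · intro e he e' he'
      simp only [mem_union, mem_image, mem_range, mem_singleton] at he he'
      rcases he with rfl | ⟨t, ht, rfl⟩ | ⟨t, ht, rfl⟩ <;>
        rcases he' with rfl | ⟨t', ht', rfl⟩ | ⟨t', ht', rfl⟩ <;>
        simp only <;> omega
    · intro i hi
      by_cases h1 : i < 3 * j + 1
      · exact ⟨(12 * j + 5 - 2 * i, i), by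
          simp only [mem_union, mem_image, mem_range]
          exact Or.inr (Or.inr ⟨i, h1, rfl⟩), Or.inr rfl⟩
      · by_cases h2 : i ≤ 6 * j + 2
        · refine ⟨(12 * j + 6 - 2 * (i - (3 * j + 1)), 3 * j + 1 + (i - (3 * j + 1))), ?_,
            Or.inr ?_⟩
          · simp only [mem_union, mem_image, mem_range]
            exact Or.inr (Or.inl ⟨i - (3 * j + 1), by omega, rfl⟩)
          · simp only; omega
        · by_cases h3 : i = 6 * j + 3
          · exact ⟨(12 * j + 7, 6 * j + 3), by simp, Or.inr h3.symm⟩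
          · by_cases h4 : i = 12 * j + 7
            · exact ⟨(12 * j + 7, 6 * j + 3), by simp, Or.inl h4.symm⟩
            · rcases Nat.even_or_odd' (12 * j + 6 - i) with ⟨t, ht | ht⟩
              · refine ⟨(12 * j + 6 - 2 * t, 3 * j + 1 + t), ?_, Or.inl ?_⟩
                · simp only [mem_union, mem_image, mem_range]
                  exact Or.inr (Or.inl ⟨t, by omega, rfl⟩)
                · simp only; omega
              · refine ⟨(12 * j + 5 - 2 * t, t), ?_, Or.inl ?_⟩
                · simp only [mem_union, mem_image, mem_range]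
                  exact Or.inr (Or.inr ⟨t, by omega, rfl⟩)
                · simp only; omega
    · intro e he e' he' h
      simp only [mem_union, mem_image, mem_range, mem_singleton] at he he'
      rcases he with rfl | ⟨t, ht, rfl⟩ | ⟨t, ht, rfl⟩ <;>
        rcases he' with rfl | ⟨t', ht', rfl⟩ | ⟨t', ht', rfl⟩ <;>
        simp only [Prod.mk.injEq] at h ⊢ <;> omega
  · intro t ht
    obtain ⟨c, hcc⟩ : ∃ c, c = 3 ^ (s + 1) := ⟨_, rfl⟩
    have hZ := good_Z0 (s + 1) j (by omega)
    have hS := good_single (s + 1)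
    have hts : s + 2 ≤ t := by
      by_contra hcon
      have : 3 ^ t ≤ 3 ^ (s + 1) := Nat.pow_le_pow_right (by norm_num) (by omega)
      omega
    have h33 : 3 ^ (s + 2) = 3 * 3 ^ (s + 1) := by rw [pow_succ 3 (s + 1)]; ring
    have h9 : 3 * 3 ^ (s + 1) ≤ 3 ^ t := by
      rw [← h33]
      exact Nat.pow_le_pow_right (by norm_num) hts
    obtain ⟨b, hb⟩ : ∃ b, b = 3 ^ t := ⟨_, rfl⟩
    rw [← hcc] at hZ hS h9 hc h33
    rw [← hb] at h9 ⊢
    have hP : Good {c + 3 * j + 1, c + 3 * j + 2, c - (6 * j + 3)} :=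
      good_part (part_triple (K := s + 2) (by omega) (by omega) (by omega) (by rw [h33]; omega))
    have hmem : ∀ x, x ∈ Mset m (12 * j + 8) ({(12 * j + 7, 6 * j + 3)} ∪
        ((range (3 * j + 2)).image (fun t => (12 * j + 6 - 2 * t, 3 * j + 1 + t)) ∪
        (range (3 * j + 1)).image (fun t => (12 * j + 5 - 2 * t, t)))) ↔
        (1 ≤ x ∧ x ≤ m - (12 * j + 8)) ∨ (c - 3 * j ≤ x ∧ x ≤ c + 3 * j + 2) ∨
          x = c - (6 * j + 3) := by
      intro x
      rw [mem_Mset]
      constructor
      · rintro (hx | ⟨e, he, hx⟩)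
        · exact Or.inl hx
        · simp only [mem_union, mem_image, mem_range, mem_singleton] at he
          rcases he with rfl | ⟨t, ht, rfl⟩ | ⟨t, ht, rfl⟩ <;> simp only at hx <;> omega
      · rintro (hx | hx | hx)
        · exact Or.inl hx
        · right
          by_cases hxc : x ≤ c + 1
          · refine ⟨(12 * j + 6 - 2 * (x - (c - 3 * j)), 3 * j + 1 + (x - (c - 3 * j))), ?_, ?_⟩
            · simp only [mem_union, mem_image, mem_range]
              exact Or.inr (Or.inl ⟨x - (c - 3 * j), by omega, rfl⟩)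
            · simp only; omega
          · refine ⟨(12 * j + 5 - 2 * (x - (c + 2)), x - (c + 2)), ?_, ?_⟩
            · simp only [mem_union, mem_image, mem_range]
              exact Or.inr (Or.inr ⟨x - (c + 2), by omega, rfl⟩)
            · simp only; omega
        · right
          refine ⟨(12 * j + 7, 6 * j + 3), by simp, ?_⟩
          simp only; omega
    have h1 : Good ({c} ∪ Z c (3 * j)) := hS.union' hZ (by
      intro x hx hy
      rw [mem_singleton] at hx
      rw [mem_Z] at hy
      omega)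
    have h2 := h1.union' hP (by
      intro x hx hy
      simp only [mem_union, mem_singleton, mem_insert, mem_Z] at hx hy
      omega)
    refine (hG.union' h2 ?_).congr ?_
    · intro x hx hy
      simp only [mem_union, mem_singleton, mem_insert, mem_Z, mem_Icc] at hx hy
      omega
    · intro x
      rw [mem_filter, hmem, hmem]
      simp only [mem_union, mem_singleton, mem_insert, mem_Z, mem_Icc]
      omega

end Pool.Agent.V11199.TG
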